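import Mathlib
import Pool.Agent.H515R2.KarpB

/-!
# Small values of the cubic form `det (x, N x, N² x)`

If the parameter `q` is large in terms of `M`, then the integer vectors at which the cubic form has
a nonzero value of absolute value at most `M` are the integer multiples of the images of
`e = (1,0,0)` under the centralizer of `N`.
-/

set_option autoImplicit false

namespace Pool.Agent.Y699.K

open Matrix Polynomial Pool.Agent.H515R2.Karp

/-- `x` is an integer multiple of an image of `e = (1,0,0)` under an integer matrix invertible over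
`ℤ` that commutes with `N`. -/
def Triv (N : Matrix (Fin 3) (Fin 3) ℤ) (x : Fin 3 → ℤ) : Prop :=
  ∃ (V : (Matrix (Fin 3) (Fin 3) ℤ)ˣ) (m : ℤ),
    Commute (V : Matrix (Fin 3) (Fin 3) ℤ) N ∧
      x = m • ((V : Matrix (Fin 3) (Fin 3) ℤ) *ᵥ ![1, 0, 0])

theorem key' {N : Matrix (Fin 3) (Fin 3) ℤ} (hdet : N.det = 1) {S T : ℤ}
    (h : N ^ 3 = S • N ^ 2 - T • N + 1)
    {θ p q : ℝ} (hθ : θ * q = 1) (hS : (S : ℝ) = θ + p)
    (hT : (T : ℝ) = q + θ * p) (hη : 1 / 2 ≤ q - p ^ 2 / 4)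
    (he : F N ![1, 0, 0] ≠ 0) {x : Fin 3 → ℤ} (hx0 : F N x ≠ 0) {M : ℤ}
    (hx : |F N x| ≤ M)
    (hq : 256 * (((F N ![1, 0, 0]) ^ 2 * M + 1 : ℤ) : ℝ) ^ 2 ≤ q) : Triv N x := by
  obtain ⟨D, hD⟩ : ∃ D, D = F N ![1, 0, 0] := ⟨_, rfl⟩
  obtain ⟨B, hB⟩ : ∃ B : ℝ, B = ((D ^ 2 * M + 1 : ℤ) : ℝ) := ⟨_, rfl⟩
  rw [← hD, ← hB] at hq
  have hD0 : D ≠ 0 := hD ▸ he
  have hM0 : 0 ≤ M := (abs_nonneg _).trans hx
  have hB1 : 1 ≤ B := by
    rw [hB]
    have h0 : (1 : ℤ) ≤ D ^ 2 * M + 1 := by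
      have : 0 ≤ D ^ 2 * M := by positivity
      omega
    exact_mod_cast h0
  have hq' : 256 * B ^ 2 ≤ q := hq
  have hq0 : 0 < q := by nlinarith
  have hq1 : 1 < q := by nlinarith
  have hθ0 : θ ≠ 0 := by rintro rfl; simp at hθ
  obtain ⟨U, hU⟩ : ∃ U : (Matrix (Fin 3) (Fin 3) ℤ)ˣ, (U : Matrix (Fin 3) (Fin 3) ℤ) = N := by
    have : IsUnit N := by
      rw [Matrix.isUnit_iff_isUnit_det, hdet]; exact isUnit_one
    exact ⟨this.unit, this.unit_spec⟩
  have hFU : ∀ y, ((F N ((U : Matrix (Fin 3) (Fin 3) ℤ) *ᵥ y) : ℤ) : ℝ) = 1 * (F N y : ℝ) := by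
    intro y
    rw [hU, F_comm (Commute.refl N), hdet]
    push_cast; ring
  have hFn : ∀ n : ℤ, F N (((U ^ n : (Matrix (Fin 3) (Fin 3) ℤ)ˣ) : Matrix (Fin 3) (Fin 3) ℤ) *ᵥ x)
      = F N x := by
    intro n
    have := zpow_shift U (fun y => (F N y : ℝ)) 1 one_ne_zero hFU x n
    simp only [_root_.one_zpow, one_mul] at this
    exact_mod_cast this
  have hln : ∀ n : ℤ, ell N ![1, 0, 0] θ q
      (((U ^ n : (Matrix (Fin 3) (Fin 3) ℤ)ˣ) : Matrix (Fin 3) (Fin 3) ℤ) *ᵥ x)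
      = θ ^ n * ell N ![1, 0, 0] θ q x := by
    intro n
    refine zpow_shift U _ θ hθ0 ?_ x n
    intro y
    rw [hU]
    exact ell_mul h he hθ hS hT y
  -- the linear form does not vanish at `x`
  have hl0 : ell N ![1, 0, 0] θ q x ≠ 0 := by
    intro h0
    have h1 := F_kap h he x
    have h2 := F_real hθ hS hT (kap N ![1, 0, 0] x)
    rw [← h1] at h2
    have h3 : ((kap N ![1, 0, 0] x 1 : ℝ) + kap N ![1, 0, 0] x 2 * θ + kap N ![1, 0, 0] x 0 * q)
      = 0 := h0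
    rw [h3, zero_mul] at h2
    have h4 : (F N ![1, 0, 0]) ^ 2 * F N x = 0 := by exact_mod_cast h2
    rcases mul_eq_zero.1 h4 with h5 | h5
    · exact he (pow_eq_zero_iff (by norm_num) |>.1 h5)
    · exact hx0 h5
  obtain ⟨n, hn1, hn2⟩ := exists_mem_Ico_zpow (x := 2 * |ell N ![1, 0, 0] θ q x|) (y := q)
    (by positivity) hq1
  obtain ⟨y, hy⟩ : ∃ y, y = ((U ^ n : (Matrix (Fin 3) (Fin 3) ℤ)ˣ) : Matrix (Fin 3) (Fin 3) ℤ) *ᵥ x :=
    ⟨_, rfl⟩
  have hFy : F N y = F N x := by rw [hy]; exact hFn n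
  have hly : |ell N ![1, 0, 0] θ q y| * q ^ n = |ell N ![1, 0, 0] θ q x| := by
    rw [hy, hln n, abs_mul, abs_zpow]
    have hθq : |θ| ^ n * q ^ n = 1 := by
      rw [← mul_zpow]
      have : |θ| * q = 1 := by
        rw [← abs_of_pos hq0, ← abs_mul, hθ, abs_one]
      rw [this, _root_.one_zpow]
    calc _ = (|θ| ^ n * q ^ n) * |ell N ![1, 0, 0] θ q x| := by ring
      _ = _ := by rw [hθq, one_mul]
  have hqn : 0 < q ^ n := zpow_pos hq0 n
  obtain ⟨l, hl⟩ : ∃ l, l = ell N ![1, 0, 0] θ q y := ⟨_, rfl⟩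
  rw [← hl] at hly
  have hl1 : 1 / 2 ≤ |l| := by
    rw [← hly] at hn1
    have : 1 * q ^ n ≤ (2 * |l|) * q ^ n := by linarith
    have := le_of_mul_le_mul_right this hqn
    linarith
  have hl2 : |l| < q / 2 := by
    rw [← hly, zpow_add_one₀ hq0.ne'] at hn2
    have : (2 * |l|) * q ^ n < q * q ^ n := by linarith
    have := lt_of_mul_lt_mul_right this hqn.le
    linarith
  have h1 := F_kap h he y
  have h2 := F_real hθ hS hT (kap N ![1, 0, 0] y)
  have h3 : ((kap N ![1, 0, 0] y 1 : ℝ) + kap N ![1, 0, 0] y 2 * θ + kap N ![1, 0, 0] y 0 * q)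
    = l := hl.symm
  obtain ⟨k, hk⟩ : ∃ k, k = kap N ![1, 0, 0] y := ⟨_, rfl⟩
  have hKk : K N ![1, 0, 0] *ᵥ k = D • y := by rw [hk, K_kap, hD]
  rw [← hk] at h1 h2 h3
  rw [← h3] at hl1 hl2
  have h4 : |(k 1 : ℝ) + k 2 * θ + k 0 * q| *
      (((k 1 : ℝ) + p / 2 * (k 2 + k 0 * θ)) ^ 2 + (q - p ^ 2 / 4) * (k 2 - k 0 * θ) ^ 2) < B := by
    have h5 : |(k 1 : ℝ) + k 2 * θ + k 0 * q| *
      (((k 1 : ℝ) + p / 2 * (k 2 + k 0 * θ)) ^ 2 + (q - p ^ 2 / 4) * (k 2 - k 0 * θ) ^ 2)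
        = |(F (Co S T) k : ℝ)| := by
      rw [h2, abs_mul]
      congr 1
      rw [abs_of_nonneg]
      positivity
    rw [h5, ← h1, hFy, ← hD, hB]
    have h6 : |D ^ 2 * F N x| < D ^ 2 * M + 1 := by
      rw [abs_mul, abs_of_nonneg (sq_nonneg D)]
      have : D ^ 2 * |F N x| ≤ D ^ 2 * M := mul_le_mul_of_nonneg_left hx (sq_nonneg D)
      omega
    have h7 : ((|D ^ 2 * F N x| : ℤ) : ℝ) < ((D ^ 2 * M + 1 : ℤ) : ℝ) := by exact_mod_cast h6
    push_cast at h7 ⊢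
    exact h7
  obtain ⟨hk2, hk0⟩ := real_core B q θ p hB1 hq' hθ hη (k 1) (k 2) (k 0) hl1 hl2 h4
  -- now `D y = k₁ N e`
  have h5 : D • y = (k 1) • (N *ᵥ ![1, 0, 0]) := by
    rw [← hKk]
    ext i
    simp [Matrix.mulVec, dotProduct, Fin.sum_univ_three, hk2, hk0, K]
    ring
  -- apply the inverse of `N`
  have h6 : D • ((U⁻¹ : (Matrix (Fin 3) (Fin 3) ℤ)ˣ) : Matrix (Fin 3) (Fin 3) ℤ) *ᵥ y =
      (k 1) • ![1, 0, 0] := by
    have h7 := congrArg (fun v => ((U⁻¹ : (Matrix (Fin 3) (Fin 3) ℤ)ˣ) : Matrix (Fin 3) (Fin 3) ℤ) *ᵥ v) h5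
    simp only [Matrix.mulVec_smul] at h7
    rw [h7, Matrix.mulVec_mulVec, ← hU, ← Units.val_mul, inv_mul_cancel,
      Units.val_one, Matrix.one_mulVec]
  have h7 : D ∣ k 1 := by
    have h8 := congrFun h6 0
    simp only [Pi.smul_apply, smul_eq_mul] at h8
    exact ⟨_, by rw [h8]; simp⟩
  obtain ⟨m, hm⟩ := h7
  have h8 : y = m • (N *ᵥ ![1, 0, 0]) := by
    have h9 : D • y = D • (m • (N *ᵥ ![1, 0, 0])) := by
      rw [h5, hm, mul_smul]
    exact smul_right_injective _ hD0 h9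
  refine ⟨(U ^ n)⁻¹ * U, m, ?_, ?_⟩
  · have hc : Commute ((U ^ n)⁻¹ * U) U :=
      ((Commute.refl U).zpow_left n).inv_left.mul_left (Commute.refl U)
    have h10 := congrArg Units.val hc.eq
    rw [Units.val_mul, Units.val_mul] at h10
    rw [← hU]
    exact h10
  · have h11 : (((U ^ n)⁻¹ : (Matrix (Fin 3) (Fin 3) ℤ)ˣ) : Matrix (Fin 3) (Fin 3) ℤ) *ᵥ y = x := by
      rw [hy, Matrix.mulVec_mulVec, ← Units.val_mul, inv_mul_cancel, Units.val_one,
        Matrix.one_mulVec]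
    rw [← h11, h8, Matrix.mulVec_smul, Matrix.mulVec_mulVec, Units.val_mul, hU]

/-- the boundary case `4T = S²` : a square root of `N` -/
theorem boundary' {N : Matrix (Fin 3) (Fin 3) ℤ} {s : ℤ} (hs : 1 ≤ s)
    (h : N ^ 3 = (-(2 * s)) • N ^ 2 - (s ^ 2) • N + 1) {θ : ℝ} (hθ0 : 0 < θ)
    (hθ : θ * (θ + s) ^ 2 = 1)
    (he : F N ![1, 0, 0] ≠ 0) {x : Fin 3 → ℤ} (hx0 : F N x ≠ 0) {M : ℤ}
    (hx : |F N x| ≤ M)
    (hq : 256 * (((F N ![1, 0, 0]) ^ 2 * M + 1 : ℤ) : ℝ) ^ 2 ≤ s) : Triv N x := by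
  have hN3 : N ^ 3 + (2 * s) • N ^ 2 + (s ^ 2) • N = 1 := by
    rw [h, neg_smul]; abel
  obtain ⟨V, hV⟩ : ∃ V, V = N ^ 2 + s • N := ⟨_, rfl⟩
  have hV1 : V * (N + s • 1) = 1 := by
    have e1 : N ^ 2 * N = N ^ 3 := by rw [← pow_succ]
    have e2 : N * N = N ^ 2 := by rw [← pow_two]
    calc V * (N + s • 1) = N ^ 3 + (2 * s) • N ^ 2 + (s ^ 2) • N := by
          rw [hV]
          simp only [add_mul, mul_add, smul_mul_assoc, mul_smul_comm, mul_one, smul_add, e1, e2]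
          simp only [smul_smul, two_mul, add_smul, pow_two s]
          abel
      _ = 1 := hN3
  have hVN : V = N * (N + s • 1) := by
    rw [hV, mul_add, mul_smul_comm, mul_one, ← pow_two]
  have hc : Commute V N := by
    rw [hV]
    exact ((Commute.refl N).pow_left 2).add_left ((Commute.refl N).smul_left s)
  have hV2 : V ^ 2 = N := by
    calc V ^ 2 = V * (N * (N + s • 1)) := by rw [pow_two]; congr 1
      _ = (V * N) * (N + s • 1) := by rw [mul_assoc]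
      _ = (N * V) * (N + s • 1) := by rw [hc.eq]
      _ = N * (V * (N + s • 1)) := by rw [mul_assoc]
      _ = N := by rw [hV1, mul_one]
  have hV3 : V ^ 3 = (0 : ℤ) • V ^ 2 - s • V + 1 := by
    have : V ^ 3 + s • V = 1 := by
      rw [← hV1, mul_add, mul_smul_comm, mul_one, pow_succ, hV2, hc.eq]
    rw [← this]; simp
  have hK : ∀ y, K N y = K V y * !![1, 0, 0; 0, 0, 1; 0, 1, -s] := by
    intro y
    have h4 : N ^ 2 = V - s • V ^ 2 := by
      have e : V ^ 4 = V * V ^ 3 := by rw [← pow_succ']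
      calc N ^ 2 = V ^ 4 := by rw [← hV2, ← pow_mul]
        _ = V - s • V ^ 2 := by
          rw [e, hV3]
          simp only [zero_smul, zero_sub, mul_add, mul_neg, mul_smul_comm, mul_one, ← pow_two]
          abel
    ext i j
    rw [Matrix.mul_apply, Fin.sum_univ_three]
    fin_cases j
    · simp [K]
    · simp [K, hV2]
    · have h5 : (N ^ 2) *ᵥ y = V *ᵥ y - s • (V ^ 2 *ᵥ y) := by
        rw [h4, Matrix.sub_mulVec, Matrix.smul_mulVec]
      have h6 : K N y i 2 = (V *ᵥ y) i - s * (V ^ 2 *ᵥ y) i := by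
        have h7 := congrFun h5 i
        simp only [Pi.sub_apply, Pi.smul_apply, smul_eq_mul] at h7
        rw [← h7]; rfl
      have h8 : K V y i 1 = (V *ᵥ y) i := by simp [K]
      have h9 : K V y i 2 = (V ^ 2 *ᵥ y) i := by simp [K]
      change K N y i 2 = _
      rw [h6, h8, h9]
      simp
      ring
  have hF : ∀ y, F N y = - F V y := by
    intro y
    rw [F, hK y, Matrix.det_mul]
    have : (!![1, 0, 0; 0, 0, 1; 0, 1, -s] : Matrix (Fin 3) (Fin 3) ℤ).det = -1 := by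
      rw [Matrix.det_fin_three]; simp
    rw [this, F]; ring
  have heV : F V ![1, 0, 0] ≠ 0 := by
    intro h0; apply he; rw [hF, h0, neg_zero]
  have hdetV : V.det = 1 := by
    have h5 := congrArg Matrix.det (mul_K hV3 ![1, 0, 0])
    rw [Matrix.det_mul, Matrix.det_mul] at h5
    have h6 : (Co 0 s).det = 1 := by
      rw [Co, Matrix.det_fin_three]; simp
    rw [h6, mul_one] at h5
    have h7 : V.det * F V ![1, 0, 0] = 1 * F V ![1, 0, 0] := by
      rw [one_mul]; exact h5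
    exact mul_right_cancel₀ heV h7
  have hsR : (1 : ℝ) ≤ s := by exact_mod_cast hs
  obtain ⟨u, hu⟩ : ∃ u : ℝ, u = θ + s := ⟨_, rfl⟩
  obtain ⟨v, hv⟩ : ∃ v : ℝ, v = u * θ := ⟨_, rfl⟩
  rw [← hu] at hθ
  have hvu : v * u = 1 := by rw [hv, ← hθ]; ring
  have hu1 : 1 ≤ u := by rw [hu]; linarith
  have hv0 : 0 < v := by rw [hv]; positivity
  have hv1 : v ≤ 1 := by
    by_contra hcon
    push Not at hcon
    nlinarith
  have hfin := key' (N := V) hdetV hV3 (θ := v) (p := -v) (q := u) hvu (by push_cast; ring)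
    (by
      have e1 : v * v = θ := by
        rw [hv]
        calc u * θ * (u * θ) = (θ * u ^ 2) * θ := by ring
          _ = θ := by rw [hθ]; ring
      have : v * -v = -θ := by rw [← e1]; ring
      rw [this, hu]; ring)
    (by nlinarith) heV (x := x)
    (by intro h0; apply hx0; rw [hF, h0, neg_zero]) (M := M)
    (by
      have e1 : |F V x| = |F N x| := by rw [hF, abs_neg]
      rw [e1]; exact hx)
    (by
      have e2 : (F V ![1, 0, 0]) ^ 2 = (F N ![1, 0, 0]) ^ 2 := by rw [hF ![1, 0, 0], neg_sq]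
      rw [e2, hu]; linarith)
  obtain ⟨W, m, hW, hxW⟩ := hfin
  refine ⟨W, m, ?_, hxW⟩
  rw [← hV2]
  exact hW.pow_right 2

/-- the bound -/
theorem bound' {N : Matrix (Fin 3) (Fin 3) ℤ} (hdet : N.det = 1) {S T : ℤ}
    (h : N ^ 3 = S • N ^ 2 - T • N + 1)
    {θ p q : ℝ} (hθ : θ * q = 1) (hS : (S : ℝ) = θ + p)
    (hT : (T : ℝ) = q + θ * p) (hη : 0 < q - p ^ 2 / 4)
    (he : F N ![1, 0, 0] ≠ 0) {x : Fin 3 → ℤ} (hx0 : F N x ≠ 0) {M : ℤ}
    (hx : |F N x| ≤ M)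
    (hq : (256 * (((F N ![1, 0, 0]) ^ 2 * M + 1 : ℤ) : ℝ) ^ 2) ^ 2 + 100 ≤ q) : Triv N x := by
  obtain ⟨G, hG⟩ : ∃ G : ℝ, G = 256 * (((F N ![1, 0, 0]) ^ 2 * M + 1 : ℤ) : ℝ) ^ 2 := ⟨_, rfl⟩
  rw [← hG] at hq
  have hM0 : 0 ≤ M := (abs_nonneg _).trans hx
  have hD1 : (1 : ℝ) ≤ (((F N ![1, 0, 0]) ^ 2 * M + 1 : ℤ) : ℝ) := by
    have h0 : (1 : ℤ) ≤ (F N ![1, 0, 0]) ^ 2 * M + 1 := by
      have : 0 ≤ (F N ![1, 0, 0]) ^ 2 * M := by positivity
      omega
    exact_mod_cast h0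
  have hG1 : 1 ≤ G := by
    rw [hG]
    have := one_le_pow₀ hD1 (n := 2)
    linarith
  obtain ⟨hθ0, hθ1, hθp⟩ := aux_big hG1 hq hθ hη
  obtain ⟨hθp1, hθp2⟩ := abs_le.1 hθp
  have hE4 : 4 * (q - p ^ 2 / 4) = ((4 * T - S ^ 2 : ℤ) : ℝ) - 2 * (θ * p) + θ ^ 2 := by
    push_cast
    rw [hS, hT]; ring
  have hθsq : θ ^ 2 ≤ 1 / 100 := by nlinarith
  have hθsq0 : 0 ≤ θ ^ 2 := sq_nonneg θ
  rcases lt_trichotomy (4 * T - S ^ 2) 0 with hneg | hzero | hpos
  · exfalso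
    have h1 : (4 * T - S ^ 2 : ℤ) ≤ -1 := by omega
    have h2 : ((4 * T - S ^ 2 : ℤ) : ℝ) ≤ -1 := by exact_mod_cast h1
    linarith
  · -- the boundary case
    rw [hzero] at hE4
    have hS2 : (S : ℝ) < 1 := by
      have h1 : 0 < -2 * (θ * p) + θ ^ 2 := by
        have := hE4
        push_cast at this
        linarith
      have h2 : 0 < θ * (θ - 2 * p) := by linarith
      have h3 : 0 < θ - 2 * p := by
        by_contra hcon
        push Not at hcon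
        nlinarith
      rw [hS]; linarith
    have hS3 : S ≤ 0 := by
      have : S < 1 := by exact_mod_cast hS2
      omega
    have hSe : ∃ s : ℤ, S = -(2 * s) := by
      have h1 : Even (S ^ 2) := ⟨2 * T, by omega⟩
      have h2 : Even S := by
        rw [Int.even_pow' (by norm_num)] at h1; exact h1
      obtain ⟨s, hs⟩ := h2
      exact ⟨-s, by omega⟩
    obtain ⟨s, rfl⟩ := hSe
    have hTs : T = s ^ 2 := by
      have : 4 * T = 4 * s ^ 2 := by linarith [hzero, show (-(2 * s)) ^ 2 = 4 * s ^ 2 by ring]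
      omega
    subst hTs
    have hs0 : 0 ≤ s := by omega
    have hs1 : 1 ≤ s := by
      rcases hs0.lt_or_eq with h1 | h1
      · omega
      · exfalso
        rw [← h1] at hT
        push_cast at hT
        have : q ≥ 100 := by nlinarith
        linarith
    have hθ3 : θ * (θ + s) ^ 2 = 1 := by
      have h1 : (s : ℝ) ^ 2 = q + θ * p := by exact_mod_cast hT
      have h2 : -(2 * (s : ℝ)) = θ + p := by exact_mod_cast hS
      have h3 : p = -(2 * (s : ℝ)) - θ := by linarith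
      have h4 : q = (s : ℝ) ^ 2 - θ * p := by linarith
      rw [← hθ, h4, h3]
      ring
    have hs1R : (1 : ℝ) ≤ s := by exact_mod_cast hs1
    have h7 : (s : ℝ) ^ 2 = q + θ * p := by exact_mod_cast hT
    have h8 : G ≤ s := by
      by_contra hcon
      push Not at hcon
      have h6 : (s : ℝ) ^ 2 < G ^ 2 := by
        apply pow_lt_pow_left₀ hcon (by linarith) (by norm_num)
      linarith
    exact boundary' hs1 h hθ0 hθ3 he hx0 hx (by rw [← hG]; exact h8)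
  · have h1 : 3 ≤ 4 * T - S ^ 2 := by
      have h2 : S % 2 = 0 ∨ S % 2 = 1 := by omega
      rcases h2 with h3 | h3
      · obtain ⟨s, hs⟩ : ∃ s, S = 2 * s := ⟨S / 2, by omega⟩
        rw [hs] at hpos ⊢
        have : (2 * s) ^ 2 = 4 * s ^ 2 := by ring
        rw [this] at hpos ⊢
        omega
      · obtain ⟨s, hs⟩ : ∃ s, S = 2 * s + 1 := ⟨S / 2, by omega⟩
        rw [hs] at hpos ⊢
        have : (2 * s + 1) ^ 2 = 4 * (s ^ 2 + s) + 1 := by ring
        rw [this] at hpos ⊢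
        omega
    have h2 : (3 : ℝ) ≤ ((4 * T - S ^ 2 : ℤ) : ℝ) := by exact_mod_cast h1
    have h3 : 1 / 2 ≤ q - p ^ 2 / 4 := by linarith
    exact key' hdet h hθ hS hT h3 he hx0 hx (by rw [← hG]; nlinarith)

end Pool.Agent.Y699.K
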